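import Pool.Agent.H.MP_e00215_an.C

namespace Pool.Agent.Results.MP_e00215_an.No

open Filter Topology Finset MeasureTheory ProbabilityTheory Complex Pool.Agent.H.MP_e00215_an

/-- sets of nice recurrence -/
def Nice (R : Set ℕ) : Prop :=
  ∀ (X : Type) [MeasurableSpace X] (μ : Measure X) [IsProbabilityMeasure μ] (T : X → X),
    MeasurePreserving T μ μ → ∀ A : Set X, MeasurableSet A → 0 < μ A → ∀ ε : ℝ, 0 < ε →
      ∃ n ∈ R, μ.real A ^ 2 - ε < μ.real (A ∩ T^[n] ⁻¹' A)

/-- sets of ergodic nice recurrence -/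
def ErgNice (R : Set ℕ) : Prop :=
  ∀ (X : Type) [MeasurableSpace X] (μ : Measure X) [IsProbabilityMeasure μ] (T : X → X),
    Ergodic T μ → ∀ A : Set X, MeasurableSet A → 0 < μ A → ∀ ε : ℝ, 0 < ε →
      ∃ n ∈ R, μ.real A ^ 2 - ε < μ.real (A ∩ T^[n] ⁻¹' A)

theorem cov {Y : Type} [MeasurableSpace Y] {μ : Measure Y} [IsProbabilityMeasure μ] {S : Y → Y}
    (hS : MeasurePreserving S μ μ) {h : Y → ℝ} (hm : Measurable h) {M : ℝ} (hb : ∀ y, ‖h y‖ ≤ M)
    (c : ℝ) : ∫ y, (h y + c) * (h (S y) + c) ∂μ =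
      ∫ y, h y * h (S y) ∂μ + 2 * c * ∫ y, h y ∂μ + c ^ 2 := by
  have h1 := int_bd (μ := μ) hm M hb
  have h2 : Integrable (fun y => h (S y)) μ := int_bd (hm.comp hS.measurable) M fun y => hb _
  have h3 : Integrable (fun y => h y * h (S y)) μ :=
    int_bd (hm.mul (hm.comp hS.measurable)) (M * M) fun y => norm_mul_le_of_le (hb _) (hb _)
  have h4 : ∀ y, (h y + c) * (h (S y) + c) = h y * h (S y) + (c * h y + (c * h (S y) + c ^ 2)) :=
    fun y => by ring
  have h5 : Integrable (fun y => c * h (S y) + c ^ 2) μ := (h2.const_mul c).add (integrable_const _)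
  have h6 : Integrable (fun y => c * h y + (c * h (S y) + c ^ 2)) μ := (h1.const_mul c).add h5
  simp only [h4]
  rw [integral_add h3 h6, integral_add (h1.const_mul c) h5,
    integral_add (h2.const_mul c) (integrable_const _), integral_const_mul, integral_const_mul,
    int_comp hS hm]
  simp only [integral_const, probReal_univ, smul_eq_mul]
  ring

theorem pos_of {R : Set ℕ} (hR : 0 ∉ R) (hE : ErgNice R) {Y : Type} [MeasurableSpace Y]
    {μ : Measure Y} [IsProbabilityMeasure μ] {S : Y → Y} (hS : Ergodic S μ) {h : Y → ℝ}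
    (hm : Measurable h) {M : ℝ} (hb : ∀ y, ‖h y‖ ≤ M) (h0 : ∫ y, h y ∂μ = 0) {η : ℝ} (hη : 0 < η) :
    ∃ n ∈ R, -η < ∫ y, h y * h (S^[n] y) ∂μ := by
  set L := 2 * (|M| + 1) with hL
  have hL0 : 0 < L := by positivity
  have h1 : ∀ y, ‖h y / L‖ ≤ 1 / 2 := fun y => by
    rw [norm_div, Real.norm_of_nonneg hL0.le, div_le_iff₀ hL0]
    linarith [hb y, le_abs_self M]
  obtain ⟨Y', _, μ', _, S', B, h2, h3, h4, h5⟩ := noise hS (p := fun y => h y / L + 1 / 2)
    (by fun_prop) fun y => by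
      have := abs_le.1 (h1 y)
      constructor <;> linarith [this.1, this.2]
  rw [integral_add (int_bd (by fun_prop) _ h1) (integrable_const _), integral_div, h0] at h4
  simp only [integral_const, probReal_univ, smul_eq_mul, zero_div, zero_add, one_mul] at h4
  obtain ⟨n, hn, h6⟩ := hE Y' μ' S' h2 B h3 (pos_iff_ne_zero.2 fun h => by
    rw [Measure.real, h] at h4
    norm_num at h4) (η / L ^ 2) (by positivity)
  refine ⟨n, hn, ?_⟩
  rw [h5 n (ne_of_mem_of_not_mem hn hR), h4, cov (hS.toMeasurePreserving.iterate n)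
    (h := fun y => h y / L) (by fun_prop) h1] at h6
  simp only [div_mul_div_comm, integral_div, h0] at h6
  rw [← div_lt_div_iff_of_pos_right (mul_pos hL0 hL0), neg_div, ← sq]
  rw [← sq, zero_div] at h6
  linarith

theorem result (R : Set ℕ) (hR : 0 ∉ R) : ErgNice R ↔ Nice R := by
  refine ⟨fun hE X _ μ _ T hT A hA _ ε hε => ?_,
    fun h X _ μ _ T hT => h X μ T hT.toMeasurePreserving⟩
  have hi : Measurable (A.indicator (1 : X → ℝ)) := measurable_one.indicator hA
  have hi1 : ∀ x, ‖A.indicator (1 : X → ℝ) x‖ ≤ 1 := fun x => by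
    by_cases h : x ∈ A <;> simp [h]
  obtain ⟨ρ, _, h1⟩ := herg hT (f := fun x => A.indicator 1 x + -μ.real A) (by fun_prop) fun x => by
    have := measureReal_le_one (μ := μ) (s := A)
    have := measureReal_nonneg (μ := μ) (s := A)
    rw [Real.norm_eq_abs, abs_le]
    by_cases h : x ∈ A <;> simp only [h, Set.indicator_of_mem, Set.indicator_of_notMem,
      not_false_eq_true, Pi.one_apply] <;> constructor <;> linarith
  have h2 : ∀ n : ℕ, n ≠ 0 → ∫ s, (fourier n s).re ∂ρ =
      μ.real (A ∩ T^[n] ⁻¹' A) - μ.real A ^ 2 := fun n hn => by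
    have h2 := integral_re (𝕜 := ℂ) (cint ρ (fourier n).continuous)
    rw [h1 n hn, RCLike.re_to_complex, ofReal_re, cov (hT.iterate n) hi hi1,
      integral_indicator_one hA] at h2
    have h3 : ∀ x, A.indicator (1 : X → ℝ) x * A.indicator 1 (T^[n] x) =
        (A ∩ T^[n] ⁻¹' A).indicator 1 x := fun x => by
      by_cases h : x ∈ A <;> by_cases h' : T^[n] x ∈ A <;> simp [h, h']
    simp only [h3, RCLike.re_to_complex] at h2
    rw [h2, integral_indicator_one (hA.inter (hT.measurable.iterate n hA))]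
    ring
  obtain ⟨F, σ, _, _, h3, h4, h5, h6⟩ := atoms ρ (show 0 < ε / 3 by positivity)
  obtain ⟨Z, _, lam, _, Q, K, M, h7, h8, h9, h10, h11⟩ := kron2 F h3 h4 (fun t => ρ.real {t})
    fun _ => measureReal_nonneg
  set d := min (ε / 3) 1 with hd
  have hd0 : 0 < d := by positivity
  obtain ⟨ν, _, h12, h13, h14, h15⟩ := gsin σ √d
  rw [Real.sq_sqrt hd0.le] at h15
  set c := Real.exp (-(d * σ.real Set.univ)) with hc
  have hc0 : 0 < c := Real.exp_pos _
  set a := √(c * d) with ha
  have hs : ∀ n, Integrable (fun x : ℕ → ℝ => Real.sin (√d * x n)) ν := fun n =>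
    int_bd (by fun_prop) 1 fun x => Real.abs_sin_le_one _
  have hK : ∀ n, Integrable (fun z => a * K (Q^[n] z)) lam := fun n =>
    (int_bd (h8.comp (h7.measurable.iterate n)) M fun z => h9 _).const_mul a
  have h10' : ∫ z, a * K z ∂lam = 0 := by rw [integral_const_mul, h10, mul_zero]
  obtain ⟨n, hn, h16⟩ := pos_of hR hE (prod_erg h7 h12 h13)
    (h := fun y => a * K y.1 + Real.sin (√d * y.2 0)) (by fun_prop) (M := ‖a‖ * M + 1)
    (fun y => norm_add_le_of_le (norm_mul_le_of_le le_rfl (h9 _)) (Real.abs_sin_le_one _))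
    (by
      rw [integral_add (f := fun y : Z × (ℕ → ℝ) => a * K y.1) ((hK 0).comp_fst ν)
        ((hs 0).comp_snd lam), integral_fun_fst (fun z => a * K z),
        integral_fun_snd fun x : ℕ → ℝ => Real.sin (√d * x 0), h10', h14]
      simp) (show 0 < c * d * (ε / 3) by positivity)
  refine ⟨n, hn, ?_⟩
  have h17 : ∀ y : Z × (ℕ → ℝ), (a * K y.1 + Real.sin (√d * y.2 0)) *
      (a * K ((Prod.map Q sh)^[n] y).1 + Real.sin (√d * ((Prod.map Q sh)^[n] y).2 0)) =
      (c * d * (K y.1 * K (Q^[n] y.1)) + Real.sin (√d * y.2 0) * Real.sin (√d * y.2 n)) +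
      (a * K y.1 * Real.sin (√d * y.2 n) + a * K (Q^[n] y.1) * Real.sin (√d * y.2 0)) := fun y => by
    rw [← Real.mul_self_sqrt (mul_pos hc0 hd0).le, ← ha]
    simp only [Prod.map_iterate, Prod.map_fst, Prod.map_snd, sh_iter, Function.comp, zero_add]
    ring
  have i1 : Integrable (fun z => c * d * (K z * K (Q^[n] z))) lam :=
    (int_bd (h8.mul (h8.comp (h7.measurable.iterate n))) (M * M) fun z =>
      norm_mul_le_of_le (h9 _) (h9 _)).const_mul _
  have i2 : Integrable (fun x : ℕ → ℝ => Real.sin (√d * x 0) * Real.sin (√d * x n)) ν :=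
    int_bd (by fun_prop) (1 * 1) fun x =>
      norm_mul_le_of_le (Real.abs_sin_le_one _) (Real.abs_sin_le_one _)
  have i3 := (hK 0).mul_prod (hs n)
  have i4 := (hK n).mul_prod (hs 0)
  simp only [Function.iterate_zero, id] at i3
  have i5 : Integrable (fun y : Z × (ℕ → ℝ) => c * d * (K y.1 * K (Q^[n] y.1)) +
    Real.sin (√d * y.2 0) * Real.sin (√d * y.2 n)) (lam.prod ν) := (i1.comp_fst ν).add (i2.comp_snd lam)
  have i6 : Integrable (fun y : Z × (ℕ → ℝ) => a * K y.1 * Real.sin (√d * y.2 n) +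
    a * K (Q^[n] y.1) * Real.sin (√d * y.2 0)) (lam.prod ν) := i3.add i4
  simp only [h17] at h16
  rw [integral_add i5 i6, integral_add (i1.comp_fst ν) (i2.comp_snd lam), integral_add i3 i4,
    integral_fun_fst (fun z => c * d * (K z * K (Q^[n] z))),
    integral_fun_snd fun x : ℕ → ℝ => Real.sin (√d * x 0) * Real.sin (√d * x n),
    integral_prod_mul (fun z => a * K z) fun x : ℕ → ℝ => Real.sin (√d * x n),
    integral_prod_mul (fun z => a * K (Q^[n] z)) fun x : ℕ → ℝ => Real.sin (√d * x 0), h10', h14,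
    integral_const_mul, h11, h15] at h16
  simp only [probReal_univ, smul_eq_mul, one_mul, zero_mul, mul_zero, add_zero] at h16
  have h18 := h6 n
  rw [h2 n (ne_of_mem_of_not_mem hn hR)] at h18
  set r := ∫ s, (fourier n s).re ∂σ with hr
  have h19 : |r| ≤ 1 := (norm_integral_le_of_norm_le_const (μ := σ) (C := 1)
    (f := fun s => (fourier n s).re)
    (ae_of_all _ fun s => (abs_re_le_norm _).trans (f_norm _ _).le)).trans (by linarith)
  have h20 : |d * r| ≤ d := by
    rw [abs_mul, abs_of_pos hd0]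
    exact mul_le_of_le_one_right hd0.le h19
  have h21 := (abs_le.1 (Real.abs_exp_sub_one_sub_id_le (h20.trans (min_le_right _ _)))).2
  have h22 := Real.add_one_le_exp (-(d * r))
  have h23 : (d * r) ^ 2 ≤ d * (ε / 3) := (sq_le_sq' (abs_le.1 h20).1 (abs_le.1 h20).2).trans (by
    rw [sq]
    exact mul_le_mul_of_nonneg_left (min_le_left _ _) hd0.le)
  have h24 : Real.sinh (d * r) ≤ d * (r + ε / 3) := by
    rw [Real.sinh_eq]
    nlinarith [sq_nonneg (d * r)]
  have h25 := mul_le_mul_of_nonneg_left h24 hc0.le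
  by_contra h26
  have h27 := mul_le_mul_of_nonneg_left (show ∑ t ∈ F, ρ.real {t} * (fourier n t).re + r + ε / 3 ≤
    -(ε / 3) by linarith) (mul_pos hc0 hd0).le
  nlinarith

end Pool.Agent.Results.MP_e00215_an.No
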